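import Mathlib
import Pool.Agent.P.MP_75c46b_gt.Cont

set_option autoImplicit false

namespace Pool.Agent.Results.MP_75c46b_gt.Continuum

open Set

/-- `d(A, B) = inf {d(p, q) : p ∈ A, q ∈ B}` (only used for nonempty `A`, `B`). -/
noncomputable def setDist {X : Type*} [MetricSpace X] (A B : Set X) : ℝ :=
  sInf {r : ℝ | ∃ p ∈ A, ∃ q ∈ B, r = dist p q}

/-- `C 0, …, C n` is a chain: `C i ∩ C j ≠ ∅` if and only if `|i - j| ≤ 1`. -/
def IsChainOfSets {X : Type*} {n : ℕ} (C : Fin (n + 1) → Set X) : Prop :=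
  ∀ i j : Fin (n + 1), (C i ∩ C j).Nonempty ↔ |((i : ℕ) : ℤ) - ((j : ℕ) : ℤ)| ≤ 1

/-- The property of the real number `a` in the definition of the width: for every `ε > 0` there is
a finite open cover `𝒞` of mesh less than `ε` such that for every chain of members of `𝒞` some
(nonempty) member `A` of `𝒞` has distance at least `a` from the union of the chain. -/
def WidthProp (X : Type*) [MetricSpace X] (a : ℝ) : Prop :=
  ∀ ε : ℝ, 0 < ε → ∃ 𝒞 : Set (Set X), 𝒞.Finite ∧ (∀ A ∈ 𝒞, IsOpen A) ∧ ⋃₀ 𝒞 = univ ∧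
    (∀ A ∈ 𝒞, Metric.diam A < ε) ∧
    ∀ (n : ℕ) (C : Fin (n + 1) → Set X), (∀ i, C i ∈ 𝒞) → IsChainOfSets C →
      ∃ A ∈ 𝒞, A.Nonempty ∧ a ≤ setDist A (⋃ i, C i)

/-- The width `w(X)`: the supremum of all `a` with the property `WidthProp X a`. -/
noncomputable def width (X : Type*) [MetricSpace X] : ℝ :=
  sSup {a : ℝ | WidthProp X a}

/-- `Y` is chainable (arc-like): for every `ε > 0` there is an `ε`-map of `Y` onto `[0, 1]`. -/
def IsChainable (Y : Type*) [MetricSpace Y] : Prop :=
  ∀ ε : ℝ, 0 < ε → ∃ g : Y → unitInterval, Continuous g ∧ Function.Surjective g ∧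
    ∀ z : unitInterval, Metric.diam (g ⁻¹' {z}) ≤ ε

/-- any two points lie in a connected set whose distance from some point is at least `b` -/
def DefectProp (X : Type*) [MetricSpace X] (b : ℝ) : Prop :=
  ∀ p q : X, ∃ L : Set X, IsConnected L ∧ p ∈ L ∧ q ∈ L ∧ ∃ z : X, ∀ u ∈ L, b ≤ dist u z

/-- the irreducibility defect: the supremum of all `b` with the property `DefectProp X b` -/
noncomputable def defect (X : Type*) [MetricSpace X] : ℝ :=
  sSup {b : ℝ | DefectProp X b}

theorem far_of_width {X : Type*} [MetricSpace X] [CompactSpace X] [ConnectedSpace X] {b : ℝ}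
    (hb : WidthProp X b) : Pool.Agent.P.MP_75c46b_gt.FarChains X b := by
  refine Pool.Agent.P.MP_75c46b_gt.farChains_of_cover ?_
  intro ε hε
  obtain ⟨𝒞, -, hopen, hcov, hdiam, hch⟩ := hb ε hε
  refine ⟨𝒞, hopen, ?_, ?_, ?_⟩
  · intro u
    have : u ∈ ⋃₀ 𝒞 := hcov ▸ mem_univ u
    exact this
  · intro A hA u hu v hv
    exact (Metric.dist_le_diam_of_mem Metric.isBounded_of_compactSpace hu hv).trans
      (hdiam A hA).le
  · intro n C h1 h2 h3 h4
    obtain ⟨A, -, ⟨z, hz⟩, hA⟩ := hch n (fun i => C i) (fun i => h1 i (Nat.lt_succ_iff.mp i.2))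
      (by
        intro i j
        have hi := Nat.lt_succ_iff.mp i.2
        have hj := Nat.lt_succ_iff.mp j.2
        constructor
        · intro h
          rw [abs_le]
          by_contra hcon
          rcases le_total (i : ℕ) j with hij | hij
          · exact h4 i j (by omega) hj h
          · exact h4 j i (by omega) hi (by rwa [inter_comm])
        · intro h
          rw [abs_le] at h
          have : (j : ℕ) = i ∨ (j : ℕ) = i + 1 ∨ (i : ℕ) = j + 1 := by omega
          show (C i ∩ C j).Nonempty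
          rcases this with h' | h' | h'
          · rw [h', inter_self]; exact h2 i hi
          · rw [h']; exact h3 i (by omega)
          · rw [h', inter_comm]; exact h3 j (by omega))
    refine ⟨z, fun i hi u hu => hA.trans ?_⟩
    apply csInf_le
    · exact ⟨0, by rintro r ⟨p, -, q, -, rfl⟩; exact dist_nonneg⟩
    · exact ⟨z, hz, u, mem_iUnion.mpr ⟨⟨i, Nat.lt_succ_of_le hi⟩, hu⟩, rfl⟩

theorem real_of_chainable {Y : Type*} [MetricSpace Y] [CompactSpace Y] (hY : IsChainable Y) :
    ∀ ε > 0, ∃ h : Y → ℝ, Continuous h ∧ ∀ s t, h s = h t → dist s t ≤ ε := by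
  intro ε hε
  obtain ⟨g, hg, -, hfib⟩ := hY ε hε
  refine ⟨fun s => (g s : ℝ), continuous_subtype_val.comp hg, fun s t hst => ?_⟩
  have hst' : g s = g t := Subtype.ext hst
  exact (Metric.dist_le_diam_of_mem Metric.isBounded_of_compactSpace
    (show s ∈ g ⁻¹' {g t} from hst') (show t ∈ g ⁻¹' {g t} from rfl)).trans (hfib _)

/-- For a map `f` of a continuum `X` into a chainable continuum there is one continuum of
coincidence pairs that contains the diagonal and realises every distance up to the width (and up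
to the irreducibility defect) of `X`. -/
theorem result (X Y : Type*) [MetricSpace X] [CompactSpace X] [ConnectedSpace X]
    [MetricSpace Y] [CompactSpace Y] [ConnectedSpace Y] (hY : IsChainable Y)
    (f : X → Y) (hf : Continuous f) :
    ∃ C : Set (X × X), IsCompact C ∧ IsConnected C ∧ (∀ x, (x, x) ∈ C) ∧
      (∀ w ∈ C, f w.1 = f w.2) ∧
      ∀ a : ℝ, 0 ≤ a → a ≤ max (width X) (defect X) → ∃ w ∈ C, dist w.1 w.2 = a := by
  obtain ⟨C, h1, h2, h3, h4, h5⟩ :=
    Pool.Agent.P.MP_75c46b_gt.continuum_of_far (real_of_chainable hY) f hf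
  refine ⟨C, h1, h2, h3, h4, fun a ha haw => h5 a ha fun c hc hca => ?_⟩
  have hsup : ∀ S : Set ℝ, c < sSup S → ∃ b ∈ S, c < b := by
    intro S hS
    refine exists_lt_of_lt_csSup ?_ hS
    by_contra h
    rw [not_nonempty_iff_eq_empty] at h
    rw [h, Real.sSup_empty] at hS
    linarith
  rcases lt_max_iff.mp (hca.trans_le haw) with h | h
  · obtain ⟨b, hb, hcb⟩ := hsup _ h
    exact ⟨b, hcb, far_of_width hb⟩
  · obtain ⟨b, hb, hcb⟩ := hsup _ h
    refine ⟨b, hcb, Pool.Agent.P.MP_75c46b_gt.farChains_of_connected fun p q => ?_⟩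
    obtain ⟨L, hL, hp, hq, hz⟩ := hb p q
    exact ⟨L, hL.isPreconnected, hp, hq, hz⟩

end Pool.Agent.Results.MP_75c46b_gt.Continuum
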